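import Pool.Agent.Helper37.KD.DefsC

/-! KD project, Part I, piece B4 -/

namespace KD

namespace I.B4

open Finset

/-- the two-sided log-Lipschitz bound for the density `u_{k+1}` -/
theorem abs_log_sub_le {d : ℕ} {s c0 C0 C1 : ℝ} (E : Env d s c0 C0 C1) {μ : E.G → ℝ} (hμ : IsP μ)
    {k : ℕ} (hk : k ≤ E.K) (z w : E.G) :
    |Real.log (lev E.q μ (k + 1) (z + w)) - Real.log (lev E.q μ (k + 1) z)|
      ≤ max (E.nm k w) (E.nm k (-w)) := by
  have h1 := E.u_pos hμ hk z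
  have h2 := E.u_pos hμ hk (z + w)
  have h3 := E.u_lip hμ hk z w
  have h4 := E.u_lip hμ hk (z + w) (-w)
  rw [add_neg_cancel_right] at h4
  have h5 := Real.log_le_log h2 h3
  have h6 := Real.log_le_log h1 h4
  rw [Real.log_mul (Real.exp_pos _).ne' h1.ne', Real.log_exp] at h5
  rw [Real.log_mul (Real.exp_pos _).ne' h2.ne', Real.log_exp] at h6
  rw [abs_le]
  have h7 := le_max_left (E.nm k w) (E.nm k (-w))
  have h8 := le_max_right (E.nm k w) (E.nm k (-w))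
  constructor <;> linarith

theorem n1_neg {d N : ℕ} (x : V d N) : n1 (-x) = n1 x := by
  unfold n1
  refine Finset.sum_congr rfl (fun i _ => ?_)
  rw [Pi.neg_apply, ZMod.natAbs_valMinAbs_neg]

theorem n1_zero {d N : ℕ} : n1 (0 : V d N) = 0 := by
  unfold n1
  simp

theorem n1_le {d N : ℕ} (x : V d N) : n1 x ≤ d * (nsup x : ℝ) := by
  unfold n1
  calc ∑ i, ((x i).valMinAbs.natAbs : ℝ) ≤ ∑ _i : Fin d, (nsup x : ℝ) := by
        refine Finset.sum_le_sum (fun i _ => ?_)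
        have h : (x i).valMinAbs.natAbs ≤ nsup x :=
          Finset.le_sup (f := fun i => (x i).valMinAbs.natAbs) (Finset.mem_univ i)
        exact_mod_cast h
    _ = d * (nsup x : ℝ) := by simp

theorem nm_vs_le {d : ℕ} {s c0 C0 C1 : ℝ} (E : Env d s c0 C0 C1) (k : ℕ) (x : V d E.N) :
    E.nm k (vs x) ≤ d * (nsup x : ℝ) := by
  have h0 : (0 : ℝ) ≤ n1 x := Finset.sum_nonneg (fun i _ => Nat.cast_nonneg _)
  have h1 : E.nm k (vs x) = n1 x / 2 ^ k := by
    show n1 (0 : V d E.N) / E.R k + n1 x / 2 ^ k = _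
    rw [n1_zero, zero_div, zero_add]
  rw [h1]
  exact (div_le_self h0 (one_le_pow₀ one_le_two)).trans (n1_le x)

theorem nm_vs_neg_le {d : ℕ} {s c0 C0 C1 : ℝ} (E : Env d s c0 C0 C1) (k : ℕ) (x : V d E.N) :
    E.nm k (-(vs x)) ≤ d * (nsup x : ℝ) := by
  have h1 : E.nm k (-(vs x)) = E.nm k (vs x) := by
    show n1 (-(0 : V d E.N)) / E.R k + n1 (-x) / 2 ^ k = n1 (0 : V d E.N) / E.R k + n1 x / 2 ^ k
    rw [n1_neg, n1_neg]
  rw [h1]
  exact nm_vs_le E k x

/-- trivial bound for `Ik` -/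
theorem Ik_le (s c0 C0 C1 : ℝ) (d : ℕ) (hs : 0 < s) (hC0 : 0 < C0) (K : ℕ) :
    ∃ CK : ℝ, 0 < CK ∧ ∀ (E : Env d s c0 C0 C1), E.K = K → ∀ μ, IsP μ → ∀ k ≤ K,
      E.Ik μ k ≤ CK := by
  refine ⟨((K : ℝ) + 4) * (C0 * (2 * ((d : ℝ) * 2 ^ (K + 4)))) + 1, by positivity, ?_⟩
  intro E hK μ hμ k hk
  have hk' : k ≤ E.K := by omega
  have hmain : ∀ j ∈ range (E.K + 3 + 1), ∑ θ, E.S.wt s j θ *
      ∑ z, (lev E.q μ (k + 1) (z + E.S.jv j θ) - lev E.q μ (k + 1) z) *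
        (Real.log (lev E.q μ (k + 1) (z + E.S.jv j θ)) - Real.log (lev E.q μ (k + 1) z))
      ≤ C0 * (2 * ((d : ℝ) * 2 ^ (K + 4))) := by
    intro j hj
    have hj' : j ≤ E.K + 3 := by
      have := Finset.mem_range.1 hj
      omega
    have hL0 : (0 : ℝ) ≤ (d : ℝ) * 2 ^ (K + 4) := by positivity
    have hin : ∀ θ, ∑ z, (lev E.q μ (k + 1) (z + E.S.jv j θ) - lev E.q μ (k + 1) z) *
        (Real.log (lev E.q μ (k + 1) (z + E.S.jv j θ)) - Real.log (lev E.q μ (k + 1) z))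
        ≤ 2 * ((d : ℝ) * 2 ^ (K + 4)) := by
      intro θ
      have hsup : (nsup (E.S.pi j θ) : ℝ) ≤ 2 ^ (K + 4) := by
        have h1 := (E.S.pi_hi j hj' θ).le
        have h2 : (2 : ℕ) ^ (j + 1) ≤ 2 ^ (K + 4) := Nat.pow_le_pow_right (by norm_num) (by omega)
        exact_mod_cast h1.trans h2
      have hL : (d : ℝ) * (nsup (E.S.pi j θ) : ℝ) ≤ (d : ℝ) * 2 ^ (K + 4) :=
        mul_le_mul_of_nonneg_left hsup (Nat.cast_nonneg _)
      calc _ ≤ ∑ z, (lev E.q μ (k + 1) (z + E.S.jv j θ) + lev E.q μ (k + 1) z) *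
            ((d : ℝ) * 2 ^ (K + 4)) := by
            refine Finset.sum_le_sum (fun z _ => ?_)
            have h1 := E.u_nonneg hμ (k := k + 1) (by omega) z
            have h2 := E.u_nonneg hμ (k := k + 1) (by omega) (z + E.S.jv j θ)
            have h3 := abs_log_sub_le E hμ hk' z (E.S.jv j θ)
            have h4 : max (E.nm k (E.S.jv j θ)) (E.nm k (-(E.S.jv j θ))) ≤ (d : ℝ) * 2 ^ (K + 4) :=
              max_le ((nm_vs_le E k _).trans hL) ((nm_vs_neg_le E k _).trans hL)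
            have h5 : |lev E.q μ (k + 1) (z + E.S.jv j θ) - lev E.q μ (k + 1) z|
                ≤ lev E.q μ (k + 1) (z + E.S.jv j θ) + lev E.q μ (k + 1) z := by
              rw [abs_le]; constructor <;> linarith
            calc _ ≤ |(lev E.q μ (k + 1) (z + E.S.jv j θ) - lev E.q μ (k + 1) z) *
                  (Real.log (lev E.q μ (k + 1) (z + E.S.jv j θ)) -
                    Real.log (lev E.q μ (k + 1) z))| := le_abs_self _
              _ = |lev E.q μ (k + 1) (z + E.S.jv j θ) - lev E.q μ (k + 1) z| *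
                  |Real.log (lev E.q μ (k + 1) (z + E.S.jv j θ)) -
                    Real.log (lev E.q μ (k + 1) z)| := abs_mul _ _
              _ ≤ _ := mul_le_mul h5 (h3.trans h4) (abs_nonneg _) (by linarith)
        _ = 2 * ((d : ℝ) * 2 ^ (K + 4)) := by
            rw [← Finset.sum_mul, Finset.sum_add_distrib, sum_shift, E.u_sum hμ (by omega)]
            ring
    calc _ ≤ ∑ θ, E.S.m θ * (2 * ((d : ℝ) * 2 ^ (K + 4))) := by
          refine Finset.sum_le_sum (fun θ _ => ?_)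
          have hw0 : 0 ≤ E.S.wt s j θ := div_nonneg (E.S.m_nn θ) (tim_pos s j).le
          have hw1 : E.S.wt s j θ ≤ E.S.m θ := div_le_self (E.S.m_nn θ) (one_le_tim hs j)
          calc _ ≤ E.S.wt s j θ * (2 * ((d : ℝ) * 2 ^ (K + 4))) :=
                mul_le_mul_of_nonneg_left (hin θ) hw0
            _ ≤ _ := mul_le_mul_of_nonneg_right hw1 (by positivity)
      _ ≤ _ := by
          rw [← Finset.sum_mul]
          exact mul_le_mul_of_nonneg_right E.S.mass (by positivity)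
  have h := Finset.sum_le_sum hmain
  have h' : E.Ik μ k ≤ ∑ _j ∈ range (E.K + 3 + 1), C0 * (2 * ((d : ℝ) * 2 ^ (K + 4))) := h
  rw [Finset.sum_const, Finset.card_range, nsmul_eq_mul] at h'
  have h2 : ((E.K + 3 + 1 : ℕ) : ℝ) = (K : ℝ) + 4 := by
    rw [hK]; push_cast; ring
  rw [h2] at h'
  linarith

theorem Ik_nonneg {d : ℕ} {s c0 C0 C1 : ℝ} (E : Env d s c0 C0 C1) {μ : E.G → ℝ} (hμ : IsP μ) {k : ℕ}
    (hk : k ≤ E.K) : 0 ≤ E.Ik μ k := by
  unfold Env.Ik JSys.If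
  refine Finset.sum_nonneg (fun j _ => Finset.sum_nonneg (fun θ _ => ?_))
  refine mul_nonneg (div_nonneg (E.S.m_nn θ) (tim_pos s j).le) (Finset.sum_nonneg (fun z _ => ?_))
  have h1 := E.u_pos hμ hk z
  have h2 := E.u_pos hμ hk (z + E.S.jv j θ)
  rcases le_total (lev E.q μ (k + 1) z) (lev E.q μ (k + 1) (z + E.S.jv j θ)) with h | h
  · exact mul_nonneg (sub_nonneg.2 h) (sub_nonneg.2 (Real.log_le_log h1 h))
  · exact mul_nonneg_of_nonpos_of_nonpos (sub_nonpos.2 h) (sub_nonpos.2 (Real.log_le_log h2 h))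

theorem Ek_nonneg {d : ℕ} {s c0 C0 C1 : ℝ} (E : Env d s c0 C0 C1) (a : ℕ → E.Θ → E.G → ℝ)
    {μ : E.G → ℝ} (hμ : IsP μ) {k : ℕ} (hk : k ≤ E.K) : 0 ≤ E.Ek a μ k := by
  unfold Env.Ek JSys.Ef
  refine Finset.sum_nonneg (fun j _ => Finset.sum_nonneg (fun θ _ => ?_))
  refine mul_nonneg (div_nonneg (E.S.m_nn θ) (tim_pos s j).le) (Finset.sum_nonneg (fun z _ => ?_))
  exact mul_nonneg (le_min (E.u_pos hμ hk z).le (E.u_pos hμ hk _).le) (sq_nonneg _)

end I.B4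

end KD
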